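import Pool.Agent.P.MP_ac4909_gt.Main

namespace Pool.Agent.P.MP_ac4909_gt.Old.Nontrivial

open Pool.Agent.P.MP_ac4909_gt

/-- The Kauffman bracket skein module over `ℚ(A)` of the closed oriented 3-manifold obtained by
surgery on an arbitrary framed link `L` is not zero. -/
theorem result {ι : Type} [Fintype ι] [DecidableEq ι] (L : List (Sl (Arc ι)))
    (hL : IsFramedLink L) : Nontrivial (SkeinModule L) :=
  nontrivial_skein hL

end Pool.Agent.P.MP_ac4909_gt.Old.Nontrivial
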